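import Pool.Agent.N504.KB.Main

/-! MP_7ef860_gt: bundles over `BSU(2)` twisted by unstable Adams maps are not kinetic. -/

set_option autoImplicit false

open scoped Manifold ContDiff

namespace Pool.Agent.Results.MP_7ef860_gt.NonKinetic

open Pool.Agent.N504.Kinetic

/-- Let `E : P → B` be a model of `ESU(2) → BSU(2)`, let `W` be a closed smooth manifold with a
non-trivial action `ρ` of `SU(2)`, let `k > 1` be odd and let `ψ : B → B` be a map of loop degree
`k²`. Then there is no action `ρ'` of `SU(2)` on `W` for which the pull-back along `ψ` of the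
`W`-bundle `P ×_{SU(2)} W → B` of `ρ` is homeomorphic over `B` to the `W`-bundle of `ρ'`. -/
theorem result (d : ℕ) (W : Type) [TopologicalSpace W] [T2Space W] [CompactSpace W]
    [ChartedSpace (EuclideanSpace ℝ (Fin d)) W] [IsManifold (𝓡 d) ∞ W]
    (P B : Type) [TopologicalSpace P] [TopologicalSpace B]
    [MulAction SU2 P] [ContinuousSMul SU2 P] (E : UniversalBundle P B)
    (ρ : SU2Action W) (hρ : ρ.Nontrivial)
    (k : ℕ) (hodd : Odd k) (hk : 1 < k) (ψ : C(B, B)) (hψ : HasLoopDegree E ψ ((k : ℤ) ^ 2)) :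
    ¬ ∃ (ρ' : SU2Action W) (F : Pullback E ρ ψ ≃ₜ Assoc P ρ'),
      ∀ x, Assoc.proj E ρ' (F x) = x.1.1 := by
  rintro ⟨ρ', F, hF⟩
  obtain ⟨n, e, _, he, _⟩ := exists_embedding_euclidean_of_compact (I := 𝓡 d) (M := W)
  exact Pool.Agent.N504.KB.main (ι := Fin n)
    ⟨fun w => (e w).ofLp, (PiLp.continuous_ofLp 2 _).comp he.continuous⟩
    (fun x y h => he.injective (by
      have h' : (e x).ofLp = (e y).ofLp := h
      exact WithLp.ofLp_injective 2 h'))
    E ρ ρ' hρ k hodd hk ψ hψ F hF

end Pool.Agent.Results.MP_7ef860_gt.NonKinetic
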